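import Mathlib
import Pool.Agent.Helper30.CIR.Goals
import Pool.Agent.Helper57.RZ.T1
import Pool.Agent.Helper57.RZ.T3

/-! # Project CIR, packet CE1: an invariant line field close to the centre is central -/

set_option autoImplicit false

open Set Filter Topology

namespace Pool.Agent.Helper77.CIR

open Pool.Agent.Helper56.RZ Pool.Agent.Helper30.CIR

variable {K : ℕ} {M : Set (E K)}

/-- geometric growth of the quotient is impossible -/
lemma no_growth (a b : ℕ → ℝ) (θ : ℝ) (hθ : 1 < θ) (ha : ∀ j, 0 < a j) (hab : ∀ j, a j ≤ b j)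
    (hst : ∀ j, θ * (b (j + 1) * a j) ≤ a (j + 1) * b j) : False := by
  have hb : ∀ j, 0 < b j := fun j => lt_of_lt_of_le (ha j) (hab j)
  have h1 : ∀ j, θ ^ j * (a 0 / b 0) ≤ a j / b j := by
    intro j
    induction j with
    | zero => simp
    | succ j ih =>
      have h2 : θ * (a j / b j) ≤ a (j + 1) / b (j + 1) := by
        rw [le_div_iff₀ (hb (j + 1))]
        have e : θ * (a j / b j) * b (j + 1) = θ * (b (j + 1) * a j) / b j := by
          field_simp
        rw [e, div_le_iff₀ (hb j)]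
        exact hst j
      calc θ ^ (j + 1) * (a 0 / b 0) = θ * (θ ^ j * (a 0 / b 0)) := by ring
        _ ≤ θ * (a j / b j) := mul_le_mul_of_nonneg_left ih (by linarith)
        _ ≤ _ := h2
  have h3 : ∀ j, θ ^ j * (a 0 / b 0) ≤ 1 := by
    intro j
    refine (h1 j).trans ?_
    rw [div_le_one (hb j)]
    exact hab j
  have h4 : 0 < a 0 / b 0 := div_pos (ha 0) (hb 0)
  obtain ⟨j, hj⟩ := pow_unbounded_of_one_lt (1 / (a 0 / b 0)) hθ
  rw [div_lt_iff₀ h4] at hj
  linarith [h3 j]

/-- derivative of iterates -/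
lemma der_iter {g g' : E K → E K} (hg : IsDiffeo 1 M g g') (n : ℕ) {x : E K} (hx : x ∈ M) :
    g^[n] x ∈ M ∧ ContDiffOn ℝ 1 (g^[n]) M ∧
      der M (g^[n + 1]) x = der M g (g^[n] x) * der M (g^[n]) x := by
  have hm : ∀ n : ℕ, MapsTo (g^[n]) M M := fun n => hg.maps.iterate n
  have hs : ∀ n : ℕ, ContDiffOn ℝ 1 (g^[n]) M := by
    intro n
    induction n with
    | zero => exact contDiffOn_id
    | succ n ih =>
      rw [Function.iterate_succ']
      exact hg.smooth.comp ih (hm n)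
  refine ⟨hm n hx, hs n, ?_⟩
  rw [Function.iterate_succ']
  exact (Pool.Agent.Helper57.RZ.t2 K M g (g^[n]) x hx).2.2.1 (hm n)
    ((hs n x hx).differentiableWithinAt (by simp))
    ((hg.smooth _ (hm n hx)).differentiableWithinAt (by simp))

lemma Pi_Q {g g' : E K → E K} {Q : Fin 3 → E K → End K} (hQ : PartHyp M g g' Q) {x : E K}
    (hx : x ∈ M) (i : Fin 3) : Pi M x * Q i x = Q i x ∧ Q i x * Pi M x = Q i x := by
  rw [← (hQ.sum x hx).1]
  have hp := (hQ.proj i).2 x hx
  have ho := hQ.orth x hx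
  fin_cases i
  · simp only [Fin.zero_eta, Fin.isValue] at hp ⊢
    rw [add_mul, add_mul, mul_add, mul_add, hp, ho 1 0 (by decide), ho 2 0 (by decide),
      ho 0 1 (by decide), ho 0 2 (by decide)]
    simp
  · simp only [Fin.mk_one, Fin.isValue] at hp ⊢
    rw [add_mul, add_mul, mul_add, mul_add, hp, ho 0 1 (by decide), ho 2 1 (by decide),
      ho 1 0 (by decide), ho 1 2 (by decide)]
    simp
  · simp only [Fin.reduceFinMk, Fin.isValue] at hp ⊢
    rw [add_mul, add_mul, mul_add, mul_add, hp, ho 0 2 (by decide), ho 1 2 (by decide),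
      ho 2 0 (by decide), ho 2 1 (by decide)]
    simp

lemma inv_iter {g g' : E K → E K} {Q : Fin 3 → E K → End K} (hg : IsDiffeo 1 M g g')
    (hQ : PartHyp M g g' Q) (n : ℕ) {x : E K} (hx : x ∈ M) (i : Fin 3) :
    der M (g^[n]) x * Q i x = Q i (g^[n] x) * der M (g^[n]) x := by
  induction n with
  | zero =>
    have h0 : der M (g^[0]) x = Pi M x := by
      rw [Function.iterate_zero]
      exact (Pool.Agent.Helper57.RZ.t2 K M g g x hx).2.2.2.1
    rw [h0, Function.iterate_zero, id_eq, (Pi_Q hQ hx i).1, (Pi_Q hQ hx i).2]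
  | succ n ih =>
    obtain ⟨h1, -, h2⟩ := der_iter hg n hx
    rw [h2, mul_assoc, ih, ← mul_assoc, hQ.inv _ h1 i, mul_assoc, Function.iterate_succ_apply']

lemma field_iter {g g' : E K → E K} {X : E K → E K} {kp : E K → ℝ} (hg : IsDiffeo 1 M g g')
    (hX : ∀ x ∈ M, Pi M x (X x) = X x) (hk : ∀ x ∈ M, 0 < kp x ∧ der M g x (X x) = kp x • X (g x))
    (n : ℕ) {x : E K} (hx : x ∈ M) :
    ∃ D : ℝ, 0 < D ∧ der M (g^[n]) x (X x) = D • X (g^[n] x) := by
  induction n with
  | zero =>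
    refine ⟨1, one_pos, ?_⟩
    have h0 : der M (g^[0]) x = Pi M x := by
      rw [Function.iterate_zero]
      exact (Pool.Agent.Helper57.RZ.t2 K M g g x hx).2.2.2.1
    rw [h0, hX x hx, one_smul, Function.iterate_zero, id_eq]
  | succ n ih =>
    obtain ⟨D, hD, hd⟩ := ih
    obtain ⟨h1, -, h2⟩ := der_iter hg n hx
    obtain ⟨hk1, hk2⟩ := hk _ h1
    refine ⟨D * kp (g^[n] x), mul_pos hD hk1, ?_⟩
    rw [h2, ContinuousLinearMap.mul_apply, hd, map_smul, hk2, smul_smul,
      Function.iterate_succ_apply']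

/-- uniform domination -/
lemma dom_unif (hM : IsCompact M) {A P Q : E K → End K} (hA : ContinuousOn A M)
    (hP : ContinuousOn P M) (hQ : ContinuousOn Q M)
    (hd : ∀ x ∈ M, Dominates (A x) (P x) (Q x)) :
    ∃ θ : ℝ, 1 < θ ∧ ∀ x ∈ M, ∀ v w, P x v = v → Q x w = w →
      θ * (‖A x v‖ * ‖w‖) ≤ ‖A x w‖ * ‖v‖ := by
  -- the compact set of unit vectors
  set B : Set (E K × (E K × E K)) := M ×ˢ (Metric.sphere (0 : E K) 1 ×ˢ Metric.sphere (0 : E K) 1)
    with hB
  have hBc : IsCompact B := hM.prod ((isCompact_sphere 0 1).prod (isCompact_sphere 0 1))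
  have c1 : ContinuousOn (fun p : E K × (E K × E K) => P p.1 p.2.1) B := by
    have h1 : ContinuousOn (fun p : E K × (E K × E K) => P p.1) B :=
      hP.comp continuousOn_fst (fun p hp => hp.1)
    exact h1.clm_apply (continuous_fst.comp continuous_snd).continuousOn
  have c2 : ContinuousOn (fun p : E K × (E K × E K) => Q p.1 p.2.2) B := by
    have h1 : ContinuousOn (fun p : E K × (E K × E K) => Q p.1) B :=
      hQ.comp continuousOn_fst (fun p hp => hp.1)
    exact h1.clm_apply (continuous_snd.comp continuous_snd).continuousOn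
  have c3 : ContinuousOn (fun p : E K × (E K × E K) => A p.1 p.2.1) B := by
    have h1 : ContinuousOn (fun p : E K × (E K × E K) => A p.1) B :=
      hA.comp continuousOn_fst (fun p hp => hp.1)
    exact h1.clm_apply (continuous_fst.comp continuous_snd).continuousOn
  have c4 : ContinuousOn (fun p : E K × (E K × E K) => A p.1 p.2.2) B := by
    have h1 : ContinuousOn (fun p : E K × (E K × E K) => A p.1) B :=
      hA.comp continuousOn_fst (fun p hp => hp.1)
    exact h1.clm_apply (continuous_snd.comp continuous_snd).continuousOn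
  set S : Set (E K × (E K × E K)) := {p ∈ B | P p.1 p.2.1 - p.2.1 = 0 ∧ Q p.1 p.2.2 - p.2.2 = 0}
    with hS
  have hSc : IsCompact S := by
    have c5 : ContinuousOn (fun p : E K × (E K × E K) =>
        (P p.1 p.2.1 - p.2.1, Q p.1 p.2.2 - p.2.2)) B :=
      (c1.sub (continuous_fst.comp continuous_snd).continuousOn).prodMk
        (c2.sub (continuous_snd.comp continuous_snd).continuousOn)
    have h1 : S = B ∩ (fun p : E K × (E K × E K) =>
        (P p.1 p.2.1 - p.2.1, Q p.1 p.2.2 - p.2.2)) ⁻¹' {0} := by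
      ext p
      simp only [hS, mem_setOf_eq, mem_inter_iff, mem_preimage, mem_singleton_iff,
        Prod.mk_eq_zero]
    rw [h1]
    exact hBc.of_isClosed_subset
      (c5.preimage_isClosed_of_isClosed hBc.isClosed isClosed_singleton) inter_subset_left
  have hSB : S ⊆ B := fun p hp => hp.1
  -- a uniform bound
  obtain ⟨θ, hθ, hth⟩ : ∃ θ : ℝ, 1 < θ ∧ ∀ p ∈ S, θ * ‖A p.1 p.2.1‖ ≤ ‖A p.1 p.2.2‖ := by
    rcases S.eq_empty_or_nonempty with hE | hne
    · refine ⟨2, by norm_num, fun p hp => ?_⟩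
      rw [hE] at hp
      exact absurd hp (notMem_empty p)
    · obtain ⟨p0, hp0, hmin⟩ := hSc.exists_isMinOn hne
        ((c4.mono hSB).norm.sub (c3.mono hSB).norm)
      obtain ⟨p1, hp1, hmax⟩ := hSc.exists_isMaxOn hne (c3.mono hSB).norm
      set c : ℝ := ‖A p0.1 p0.2.2‖ - ‖A p0.1 p0.2.1‖ with hc
      have hc0 : 0 < c := by
        have h1 : P p0.1 p0.2.1 = p0.2.1 := sub_eq_zero.1 hp0.2.1
        have h2 : Q p0.1 p0.2.2 = p0.2.2 := sub_eq_zero.1 hp0.2.2
        have h3 : ‖p0.2.1‖ = 1 := mem_sphere_zero_iff_norm.1 hp0.1.2.1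
        have h4 : ‖p0.2.2‖ = 1 := mem_sphere_zero_iff_norm.1 hp0.1.2.2
        have := hd p0.1 hp0.1.1 _ _ h1 h2 h3 h4
        linarith
      set C : ℝ := ‖A p1.1 p1.2.1‖ + 1 with hC
      have hC0 : 0 < C := by positivity
      refine ⟨1 + c / C, by linarith [div_pos hc0 hC0], fun p hp => ?_⟩
      have h1 : c ≤ ‖A p.1 p.2.2‖ - ‖A p.1 p.2.1‖ := hmin hp
      have h2 : ‖A p.1 p.2.1‖ ≤ ‖A p1.1 p1.2.1‖ := hmax hp
      have h3 : c / C * ‖A p.1 p.2.1‖ ≤ c := by
        rw [div_mul_eq_mul_div, div_le_iff₀ hC0]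
        apply mul_le_mul_of_nonneg_left _ hc0.le
        linarith
      linarith
  refine ⟨θ, hθ, ?_⟩
  intro x hx v w hv hw
  rcases eq_or_ne v 0 with rfl | hv0
  · simp
  rcases eq_or_ne w 0 with rfl | hw0
  · simp
  have nv : 0 < ‖v‖ := norm_pos_iff.2 hv0
  have nw : 0 < ‖w‖ := norm_pos_iff.2 hw0
  have h1 := hth (x, (‖v‖⁻¹ • v, ‖w‖⁻¹ • w)) (by
    refine ⟨⟨hx, ?_, ?_⟩, ?_, ?_⟩
    · rw [mem_sphere_zero_iff_norm]
      exact norm_smul_inv_norm hv0
    · rw [mem_sphere_zero_iff_norm]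
      exact norm_smul_inv_norm hw0
    · simp only [map_smul, hv, sub_self]
    · simp only [map_smul, hw, sub_self])
  simp only [map_smul, norm_smul, norm_inv, norm_norm] at h1
  have h2 : θ * (‖A x v‖ * ‖w‖) = θ * (‖v‖⁻¹ * ‖A x v‖) * (‖v‖ * ‖w‖) := by
    field_simp
  have h3 : ‖A x w‖ * ‖v‖ = ‖w‖⁻¹ * ‖A x w‖ * (‖v‖ * ‖w‖) := by
    field_simp
  rw [h2, h3]
  exact mul_le_mul_of_nonneg_right h1 (by positivity)

theorem gCE1 : StmtCE1 := by
  intro K M g g' Q X kp hM hg hQ hX hk hnorm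
  obtain ⟨n, hn, hineq⟩ := hQ.ineq
  have hPi : ContinuousOn (Pi M) M := by
    have h1 : ContinuousOn (fun x => Q 0 x + Q 1 x + Q 2 x) M :=
      ((hQ.proj 0).1.add (hQ.proj 1).1).add (hQ.proj 2).1
    refine h1.congr ?_
    intro x hx
    exact ((hQ.sum x hx).1).symm
  have hsm : ContDiffOn ℝ 1 (g^[n]) M := by
    have hm : ∀ n : ℕ, MapsTo (g^[n]) M M := fun n => hg.maps.iterate n
    induction n with
    | zero => exact contDiffOn_id
    | succ n ih =>
      clear ih hn hineq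
      induction n with
      | zero =>
        rw [Function.iterate_succ', Function.iterate_zero, Function.comp_id]
        exact hg.smooth
      | succ n ih =>
        rw [Function.iterate_succ']
        exact hg.smooth.comp ih (hm (n + 1))
  have hA : ContinuousOn (der M (g^[n])) M :=
    Pool.Agent.Helper57.RZ.t3 Pool.Agent.Helper57.RZ.t2 K M (g^[n]) hPi hsm
  obtain ⟨θ1, hθ1, hd1⟩ := dom_unif hM hA (hQ.proj 0).1 (hQ.proj 1).1
    (fun x hx => (hineq x hx).2.2.1)
  obtain ⟨θ2, hθ2, hd2⟩ := dom_unif hM hA (hQ.proj 1).1 (hQ.proj 2).1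
    (fun x hx => (hineq x hx).2.2.2)
  have hm : ∀ x ∈ M, g^[n] x ∈ M := fun x hx => hg.maps.iterate n hx
  have hQQ : ∀ x ∈ M, ∀ i, Q i x (Q i x (X x)) = Q i x (X x) := by
    intro x hx i
    rw [← ContinuousLinearMap.mul_apply, (hQ.proj i).2 x hx]
  -- the components are transported
  have htr : ∀ x ∈ M, ∃ D : ℝ, 0 < D ∧ ∀ i, der M (g^[n]) x (Q i x (X x)) =
      D • Q i (g^[n] x) (X (g^[n] x)) := by
    intro x hx
    obtain ⟨D, hD, hd⟩ := field_iter hg hX hk n hx
    refine ⟨D, hD, fun i => ?_⟩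
    rw [← ContinuousLinearMap.mul_apply, inv_iter hg hQ n hx i, ContinuousLinearMap.mul_apply, hd,
      map_smul]
  -- the unstable component
  have h2 : ∀ x ∈ M, Q 2 x (X x) = 0 := by
    intro x hx
    by_contra hne
    have hxm : ∀ j : ℕ, (g^[n])^[j] x ∈ M := by
      intro j
      induction j with
      | zero => exact hx
      | succ j ih =>
        rw [Function.iterate_succ_apply']
        exact hm _ ih
    have key : ∀ y ∈ M, 0 < ‖Q 2 y (X y)‖ → 0 < ‖Q 2 (g^[n] y) (X (g^[n] y))‖ := by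
      intro y hy hpos
      obtain ⟨D, hD, hd⟩ := htr y hy
      have hb : 0 < ‖Q 1 y (X y)‖ := lt_of_lt_of_le hpos (hnorm y hy).2
      have h3 : der M (g^[n]) y (Q 2 y (X y)) ≠ 0 := by
        intro h0
        set v : E K := ‖Q 1 y (X y)‖⁻¹ • Q 1 y (X y) with hv
        set w : E K := ‖Q 2 y (X y)‖⁻¹ • Q 2 y (X y) with hw
        have h4 := (hineq y hy).2.2.2 v w (by rw [hv, map_smul, hQQ y hy 1])
          (by rw [hw, map_smul, hQQ y hy 2]) (norm_smul_inv_norm (norm_pos_iff.1 hb))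
          (norm_smul_inv_norm (norm_pos_iff.1 hpos))
        have h5 : der M (g^[n]) y w = 0 := by rw [hw, map_smul, h0, smul_zero]
        rw [h5, norm_zero] at h4
        exact absurd h4 (not_lt.2 (norm_nonneg _))
      rw [hd 2] at h3
      exact norm_pos_iff.2 (fun h4 => h3 (by rw [h4, smul_zero]))
    refine no_growth (fun j => ‖Q 2 ((g^[n])^[j] x) (X ((g^[n])^[j] x))‖)
      (fun j => ‖Q 1 ((g^[n])^[j] x) (X ((g^[n])^[j] x))‖) θ2 hθ2 ?_ ?_ ?_
    · intro j
      induction j with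
      | zero => exact norm_pos_iff.2 hne
      | succ j ih =>
        simp only [Function.iterate_succ_apply']
        exact key _ (hxm j) ih
    · intro j
      exact (hnorm _ (hxm j)).2
    · intro j
      simp only [Function.iterate_succ_apply']
      obtain ⟨D, hD, hd⟩ := htr _ (hxm j)
      have h3 := hd2 _ (hxm j) _ _ (hQQ _ (hxm j) 1) (hQQ _ (hxm j) 2)
      rw [hd 1, hd 2, norm_smul, norm_smul, Real.norm_of_nonneg hD.le] at h3
      have h4 : D * (θ2 * (‖Q 1 (g^[n] ((g^[n])^[j] x)) (X (g^[n] ((g^[n])^[j] x)))‖ *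
          ‖Q 2 ((g^[n])^[j] x) (X ((g^[n])^[j] x))‖)) ≤
          D * (‖Q 2 (g^[n] ((g^[n])^[j] x)) (X (g^[n] ((g^[n])^[j] x)))‖ *
          ‖Q 1 ((g^[n])^[j] x) (X ((g^[n])^[j] x))‖) := by
        calc _ = θ2 * (D * ‖Q 1 (g^[n] ((g^[n])^[j] x)) (X (g^[n] ((g^[n])^[j] x)))‖ *
              ‖Q 2 ((g^[n])^[j] x) (X ((g^[n])^[j] x))‖) := by ring
          _ ≤ _ := h3
          _ = _ := by ring
      exact le_of_mul_le_mul_left h4 hD
  -- the stable component
  have h0 : ∀ x ∈ M, Q 0 x (X x) = 0 := by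
    intro x hx
    by_contra hne
    have hm' : ∀ y ∈ M, g'^[n] y ∈ M := fun y hy => hg.maps'.iterate n hy
    have hxm : ∀ j : ℕ, (g'^[n])^[j] x ∈ M := by
      intro j
      induction j with
      | zero => exact hx
      | succ j ih =>
        rw [Function.iterate_succ_apply']
        exact hm' _ ih
    have hback : ∀ m : ℕ, ∀ y ∈ M, g^[m] (g'^[m] y) = y := by
      intro m
      induction m with
      | zero => intro y _; rfl
      | succ m ih =>
        intro y hy
        rw [Function.iterate_succ_apply', Function.iterate_succ_apply, ih _ (hg.maps' hy),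
          hg.right y hy]
    refine no_growth (fun j => ‖Q 0 ((g'^[n])^[j] x) (X ((g'^[n])^[j] x))‖)
      (fun j => ‖Q 1 ((g'^[n])^[j] x) (X ((g'^[n])^[j] x))‖) θ1 hθ1 ?_ ?_ ?_
    · intro j
      induction j with
      | zero => exact norm_pos_iff.2 hne
      | succ j ih =>
        simp only [Function.iterate_succ_apply']
        set y := (g'^[n])^[j] x with hy
        have hyM : y ∈ M := hxm j
        obtain ⟨D, hD, hd⟩ := htr _ (hm' y hyM)
        rw [hback n y hyM] at hd
        have h3 := hd 0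
        refine norm_pos_iff.2 (fun h4 => ?_)
        rw [h4, map_zero] at h3
        have h5 := (smul_eq_zero.1 h3.symm).resolve_left hD.ne'
        simp only [h5, norm_zero, lt_self_iff_false] at ih
    · intro j
      exact (hnorm _ (hxm j)).1
    · intro j
      simp only [Function.iterate_succ_apply']
      set y := (g'^[n])^[j] x with hy
      have hyM : y ∈ M := hxm j
      obtain ⟨D, hD, hd⟩ := htr _ (hm' y hyM)
      rw [hback n y hyM] at hd
      have h3 := hd1 _ (hm' y hyM) _ _ (hQQ _ (hm' y hyM) 0) (hQQ _ (hm' y hyM) 1)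
      rw [hd 0, hd 1, norm_smul, norm_smul, Real.norm_of_nonneg hD.le] at h3
      have h4 : D * (θ1 * (‖Q 1 (g'^[n] y) (X (g'^[n] y))‖ * ‖Q 0 y (X y)‖)) ≤
          D * (‖Q 0 (g'^[n] y) (X (g'^[n] y))‖ * ‖Q 1 y (X y)‖) := by
        calc _ = θ1 * (D * ‖Q 0 y (X y)‖ * ‖Q 1 (g'^[n] y) (X (g'^[n] y))‖) := by ring
          _ ≤ _ := h3
          _ = _ := by ring
      exact le_of_mul_le_mul_left h4 hD
  intro x hx
  have h3 : X x = Q 0 x (X x) + Q 1 x (X x) + Q 2 x (X x) := by
    conv_lhs => rw [← hX x hx, ← (hQ.sum x hx).1]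
    rfl
  rw [h0 x hx, h2 x hx, zero_add, add_zero] at h3
  exact h3.symm

end Pool.Agent.Helper77.CIR
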